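import Mathlib

namespace Pool.Agent.Results.MP_ca4252_co.SlopeBound

open Real

/-- the substitution `0 ↦ 01`, `1 ↦ 0` on finite words -/
def morph (l : List ℕ) : List ℕ := l.flatMap fun c => if c = 0 then [0, 1] else [0]

/-- The Fibonacci word `f = 0100101001001…`, the fixed point of the substitution: its `n`-th
letter is the `n`-th letter of the `n`-th iterate of the substitution on the word `0` (this
iterate has more than `n` letters and is an initial segment of all later iterates). -/
def fibWord (n : ℕ) : ℕ := (morph^[n] [0]).getD n 0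

/-- The lengths of monochromatic arithmetic progressions with difference `d`. -/
def lengths (d : ℕ) : Set ℕ := {k | ∃ i, ∀ j < k, fibWord (i + j * d) = fibWord i}

/-- `A d` is the largest length of a monochromatic arithmetic progression with difference `d`. -/
noncomputable def A (d : ℕ) : ℕ := sSup (lengths d)

/-! ### The golden ratio -/

/-- the golden ratio -/
noncomputable def t : ℝ := goldenRatio

lemma t_sq : t ^ 2 = t + 1 := goldenRatio_sq

lemma t_irr : Irrational t := goldenRatio_irrational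

lemma t_gt : 1.618 < t := by
  unfold t goldenRatio
  have : (2.236 : ℝ) < √5 := by
    rw [Real.lt_sqrt (by norm_num)]; norm_num
  linarith

lemma t_lt : t < 1.6181 := by
  unfold t goldenRatio
  have : √5 < (2.2361 : ℝ) := by
    rw [Real.sqrt_lt' (by norm_num)]; norm_num
  linarith

lemma sqrt_div : √5 / goldenRatio = 3 - t := by
  have h : √5 = 2 * t - 1 := by unfold t goldenRatio; ring
  rw [div_eq_iff goldenRatio_ne_zero, h]
  show 2 * t - 1 = (3 - t) * t
  have := t_sq
  nlinarith

lemma mul_t_ne_int {m : ℕ} (hm : 1 ≤ m) (z : ℤ) : (m : ℝ) * t ≠ z := by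
  intro h
  have h1 := t_irr.natCast_mul (m := m) (by omega)
  exact h1 ⟨z, by rw [h]; simp⟩

/-! ### The floor formula for the Fibonacci word -/

/-- the floor formula -/
noncomputable def g (n : ℕ) : ℕ := if Int.fract (((n : ℝ) + 1) * t) < 2 - t then 1 else 0

/-- the position where the image of the `L`-th letter starts -/
noncomputable def s (L : ℕ) : ℕ := (⌊((L : ℝ) + 1) * t⌋ - 1).toNat

lemma s_cast (L : ℕ) : (s L : ℤ) = ⌊((L : ℝ) + 1) * t⌋ - 1 := by
  unfold s
  apply Int.toNat_of_nonneg
  have h : (1 : ℤ) ≤ ⌊((L : ℝ) + 1) * t⌋ := by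
    rw [Int.le_floor]
    have h1 := t_gt
    have h2 : (0 : ℝ) ≤ L := Nat.cast_nonneg L
    push_cast
    nlinarith
  omega

lemma s_real (L : ℕ) : (s L : ℝ) + 1 = (⌊((L : ℝ) + 1) * t⌋ : ℝ) := by
  have h := s_cast L
  have h2 : ((s L : ℤ) : ℝ) = ((⌊((L : ℝ) + 1) * t⌋ - 1 : ℤ) : ℝ) := by rw [h]
  push_cast at h2
  linarith

lemma theta_pos (L : ℕ) : 0 < Int.fract (((L : ℝ) + 1) * t) := by
  rcases (Int.fract_nonneg (((L : ℝ) + 1) * t)).eq_or_lt with h | h
  · exfalso
    have h1 := mul_t_ne_int (m := L + 1) (by omega) ⌊((L : ℝ) + 1) * t⌋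
    apply h1
    push_cast
    have := Int.self_sub_floor (((L : ℝ) + 1) * t)
    linarith
  · exact h

lemma theta_ne (L : ℕ) : Int.fract (((L : ℝ) + 1) * t) ≠ 2 - t := by
  intro h
  have h1 := mul_t_ne_int (m := L + 2) (by omega) (⌊((L : ℝ) + 1) * t⌋ + 2)
  apply h1
  push_cast
  have := Int.self_sub_floor (((L : ℝ) + 1) * t)
  linarith

lemma s_succ (L : ℕ) : s (L + 1) = s L + (if g L = 0 then 2 else 1) := by
  have h1 := s_cast (L + 1)
  have h2 := s_cast L
  have f1 := Int.floor_add_fract (((L : ℝ) + 1) * t)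
  have f2 := Int.fract_nonneg (((L : ℝ) + 1) * t)
  have f3 := Int.fract_lt_one (((L : ℝ) + 1) * t)
  have g1 := t_gt
  have g2 := t_lt
  by_cases hg : Int.fract (((L : ℝ) + 1) * t) < 2 - t
  · have hgL : g L = 1 := if_pos hg
    rw [hgL]
    have : ⌊(((L + 1 : ℕ) : ℝ) + 1) * t⌋ = ⌊((L : ℝ) + 1) * t⌋ + 1 := by
      rw [Int.floor_eq_iff]
      push_cast
      constructor <;> nlinarith
    rw [this] at h1
    simp only [one_ne_zero, if_false]
    omega
  · have hgL : g L = 0 := if_neg hg
    rw [hgL]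
    have : ⌊(((L + 1 : ℕ) : ℝ) + 1) * t⌋ = ⌊((L : ℝ) + 1) * t⌋ + 2 := by
      rw [Int.floor_eq_iff]
      push_cast
      constructor <;> nlinarith
    rw [this] at h1
    simp only [if_true]
    omega

lemma fract_eq {a b : ℝ} (h0 : 0 ≤ b) (h1 : b < 1) (z : ℤ) (h : a - b = z) : Int.fract a = b :=
  Int.fract_eq_iff.2 ⟨h0, h1, z, h⟩

lemma g_s (L : ℕ) : g (s L) = 0 := by
  unfold g
  apply if_neg
  rw [s_real]
  set x := ((L : ℝ) + 1) * t with hx
  have f1 := Int.floor_add_fract x
  have f2 := theta_pos L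
  have f3 := Int.fract_lt_one x
  rw [← hx] at f2
  have g1 := t_gt
  have g2 := t_lt
  have hsq := t_sq
  have e : Int.fract ((⌊x⌋ : ℝ) * t) = 1 - Int.fract x * (t - 1) := by
    apply fract_eq (z := ⌊x⌋ + (L + 1) - 1)
    · nlinarith
    · nlinarith
    · push_cast
      have e1 : (⌊x⌋ : ℝ) = x - Int.fract x := by linarith
      have e2 : x * t = x + (L + 1) := by
        rw [hx]
        calc ((L : ℝ) + 1) * t * t = ((L : ℝ) + 1) * t ^ 2 := by ring
          _ = _ := by rw [hsq]; ring
      have e3 : (⌊x⌋ : ℝ) * t = x * t - Int.fract x * t := by rw [e1]; ring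
      rw [e3, e2]
      linarith
  rw [e]
  nlinarith

lemma g_s_succ (L : ℕ) (hL : g L = 0) : g (s L + 1) = 1 := by
  have hL' : ¬ Int.fract (((L : ℝ) + 1) * t) < 2 - t := by
    intro h
    have : g L = 1 := if_pos h
    omega
  unfold g
  apply if_pos
  push_cast
  rw [s_real]
  have hne := theta_ne L
  set x := ((L : ℝ) + 1) * t with hx
  have f1 := Int.floor_add_fract x
  have f3 := Int.fract_lt_one x
  have f4 : 2 - t < Int.fract x := lt_of_le_of_ne (not_lt.1 hL') (Ne.symm hne)
  have g1 := t_gt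
  have g2 := t_lt
  have hsq := t_sq
  have e : Int.fract (((⌊x⌋ : ℝ) + 1) * t) = (t - 1) * (1 - Int.fract x) := by
    apply fract_eq (z := ⌊x⌋ + (L + 1) + 1)
    · nlinarith
    · nlinarith
    · push_cast
      have e1 : (⌊x⌋ : ℝ) = x - Int.fract x := by linarith
      have e2 : x * t = x + (L + 1) := by
        rw [hx]
        calc ((L : ℝ) + 1) * t * t = ((L : ℝ) + 1) * t ^ 2 := by ring
          _ = _ := by rw [hsq]; ring
      have e3 : ((⌊x⌋ : ℝ) + 1) * t = x * t - Int.fract x * t + t := by rw [e1]; ring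
      rw [e3, e2]
      linarith
  rw [e]
  nlinarith

/-- initial segments of the word given by the floor formula -/
noncomputable def pref (L : ℕ) : List ℕ := (List.range L).map g

lemma pref_succ (L : ℕ) : pref (L + 1) = pref L ++ [g L] := by
  unfold pref
  rw [List.range_succ, List.map_append]
  rfl

lemma morph_pref (L : ℕ) : morph (pref L) = pref (s L) := by
  induction L with
  | zero =>
    have h : s 0 = 0 := by
      have h1 := s_cast 0
      have h2 : ⌊(((0 : ℕ) : ℝ) + 1) * t⌋ = 1 := by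
        rw [Int.floor_eq_iff]
        have g1 := t_gt
        have g2 := t_lt
        push_cast
        constructor <;> linarith
      rw [h2] at h1
      omega
    rw [h]; rfl
  | succ L ih =>
    have h1 : morph (pref (L + 1)) = morph (pref L) ++ morph [g L] := by
      rw [pref_succ]
      unfold morph
      rw [List.flatMap_append]
    rw [h1, ih, s_succ]
    by_cases hg : g L = 0
    · rw [if_pos hg, pref_succ, pref_succ, g_s, g_s_succ L hg, hg]
      simp [morph]
    · rw [if_neg hg, pref_succ, g_s]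
      simp [morph, hg]

lemma pref_one : pref 1 = [0] := by
  rw [pref_succ]
  have : g 0 = 0 := by
    unfold g
    apply if_neg
    have e : Int.fract ((((0 : ℕ) : ℝ) + 1) * t) = t - 1 := by
      have g1 := t_gt
      have g2 := t_lt
      apply fract_eq (z := 1)
      · linarith
      · linarith
      · push_cast; ring
    rw [e]
    have g1 := t_gt
    linarith
  rw [this]; rfl

lemma le_s {L : ℕ} (hL : 1 ≤ L) : L + 1 ≤ s L := by
  have h := s_cast L
  have h2 : ((L : ℤ) + 2) ≤ ⌊((L : ℝ) + 1) * t⌋ := by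
    rw [Int.le_floor]
    have g1 := t_gt
    have h3 : (1 : ℝ) ≤ L := by exact_mod_cast hL
    push_cast
    nlinarith
  omega

lemma iter_pref (n : ℕ) : morph^[n] [0] = pref (s^[n] 1) := by
  induction n with
  | zero => exact pref_one.symm
  | succ n ih => rw [Function.iterate_succ_apply', ih, morph_pref, Function.iterate_succ_apply']

lemma iter_s (n : ℕ) : n + 1 ≤ s^[n] 1 := by
  induction n with
  | zero => simp
  | succ n ih =>
    rw [Function.iterate_succ_apply']
    have := le_s (L := s^[n] 1) (by omega)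
    omega

lemma fibWord_eq (n : ℕ) : fibWord n = g n := by
  unfold fibWord
  rw [iter_pref]
  have h := iter_s n
  unfold pref
  rw [List.getD_eq_getElem?_getD, List.getElem?_map, List.getElem?_range (by omega)]
  rfl

/-! ### Drift lemmas -/

lemma drift0 {c Y : ℝ} {M : ℕ} (hc : |c| ≤ 2 - t)
    (h : ∀ j : ℕ, j < M → 2 - t ≤ Int.fract (Y + j * c)) :
    ∀ j : ℕ, j < M → ⌊Y + j * c⌋ = ⌊Y⌋ := by
  intro j
  induction j with
  | zero => intro _; simp
  | succ j ih =>
    intro hj
    have i := ih (by omega)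
    have h1 := h j (by omega)
    have h2 := h (j + 1) hj
    have a1 := Int.floor_add_fract (Y + j * c)
    have a2 := Int.fract_lt_one (Y + j * c)
    have b1 := Int.floor_add_fract (Y + ((j + 1 : ℕ) : ℝ) * c)
    have b2 := Int.fract_lt_one (Y + ((j + 1 : ℕ) : ℝ) * c)
    rw [i] at a1
    have c1 := (abs_le.1 hc).1
    have c2 := (abs_le.1 hc).2
    have g1 := t_gt
    have ee : Y + ((j + 1 : ℕ) : ℝ) * c = (Y + j * c) + c := by push_cast; ring
    rw [ee] at h2 b1 b2 ⊢
    set n := ⌊Y⌋
    set m := ⌊Y + j * c + c⌋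
    have u1 : (m : ℝ) < n + 1 := by
      by_contra hcon
      push Not at hcon
      nlinarith
    have u2 : (n : ℝ) - 1 < m := by nlinarith
    have u3 : m < n + 1 := by exact_mod_cast u1
    have u4 : n - 1 < m := by exact_mod_cast u2
    omega

lemma drift1 {c Y : ℝ} {M : ℕ} (hc : |c| ≤ 1 / 2)
    (h : ∀ j : ℕ, j < M → Int.fract (Y + j * c) < 2 - t) :
    ∀ j : ℕ, j < M → ⌊Y + j * c⌋ = ⌊Y⌋ := by
  intro j
  induction j with
  | zero => intro _; simp
  | succ j ih =>
    intro hj
    have i := ih (by omega)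
    have h1 := h j (by omega)
    have h2 := h (j + 1) hj
    have a1 := Int.floor_add_fract (Y + j * c)
    have a2 := Int.fract_nonneg (Y + j * c)
    have b1 := Int.floor_add_fract (Y + ((j + 1 : ℕ) : ℝ) * c)
    have b2 := Int.fract_nonneg (Y + ((j + 1 : ℕ) : ℝ) * c)
    rw [i] at a1
    have c1 := (abs_le.1 hc).1
    have c2 := (abs_le.1 hc).2
    have g1 := t_gt
    have ee : Y + ((j + 1 : ℕ) : ℝ) * c = (Y + j * c) + c := by push_cast; ring
    rw [ee] at h2 b1 b2 ⊢
    set n := ⌊Y⌋
    set m := ⌊Y + j * c + c⌋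
    have u1 : (m : ℝ) < n + 1 := by nlinarith
    have u2 : (n : ℝ) - 1 < m := by
      by_contra hcon
      push Not at hcon
      nlinarith
    have u3 : m < n + 1 := by exact_mod_cast u1
    have u4 : n - 1 < m := by exact_mod_cast u2
    omega

/-- steps longer than the short arc -/
lemma big_pos {e X : ℝ} {K : ℕ} (hK : 2 ≤ K) (he1 : 2 - t < e) (he2 : e ≤ 1 / 2)
    (h : ∀ j : ℕ, j < K → 2 - t ≤ Int.fract (X + j * e)) :
    ((((K + 1) / 2 : ℕ) : ℝ) - 1) * (1 - 2 * e) < t - 1 - e ∨
      (((K / 2 : ℕ) : ℝ) - 1) * (1 - 2 * e) < t - 2 + e := by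
  have g1 := t_gt
  have g2 := t_lt
  have hc : |-(1 - 2 * e)| ≤ 2 - t := by
    rw [abs_neg, abs_of_nonneg (by linarith)]; linarith
  have hE : ∀ j : ℕ, j < (K + 1) / 2 → 2 - t ≤ Int.fract (X + j * (-(1 - 2 * e))) := by
    intro j hj
    have h1 := h (2 * j) (by omega)
    have e1 : X + ((2 * j : ℕ) : ℝ) * e = X + j * (-(1 - 2 * e)) + ((j : ℤ) : ℝ) := by
      push_cast; ring
    rwa [e1, Int.fract_add_intCast] at h1
  have hO : ∀ j : ℕ, j < K / 2 → 2 - t ≤ Int.fract ((X + e) + j * (-(1 - 2 * e))) := by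
    intro j hj
    have h1 := h (2 * j + 1) (by omega)
    have e1 : X + ((2 * j + 1 : ℕ) : ℝ) * e =
        (X + e) + j * (-(1 - 2 * e)) + ((j : ℤ) : ℝ) := by
      push_cast; ring
    rwa [e1, Int.fract_add_intCast] at h1
  have dE := drift0 hc hE
  have dO := drift0 hc hO
  obtain ⟨M, hM⟩ : ∃ M, (K + 1) / 2 = M + 1 := ⟨(K + 1) / 2 - 1, by omega⟩
  obtain ⟨m, hm⟩ : ∃ m, K / 2 = m + 1 := ⟨K / 2 - 1, by omega⟩
  rw [hM] at hE dE ⊢
  rw [hm] at hO dO ⊢
  have e1 := hE M (by omega)
  have e2 := dE M (by omega)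
  have e3 := hO m (by omega)
  have e4 := dO m (by omega)
  have x1 := Int.floor_add_fract X
  have x2 := Int.fract_lt_one X
  have x3 : 2 - t ≤ Int.fract X := by simpa using hE 0 (by omega)
  have y1 := Int.floor_add_fract (X + e)
  have y2 := Int.fract_lt_one (X + e)
  have y3 : 2 - t ≤ Int.fract (X + e) := by simpa using hO 0 (by omega)
  have z1 := Int.floor_add_fract (X + M * (-(1 - 2 * e)))
  have w1 := Int.floor_add_fract ((X + e) + m * (-(1 - 2 * e)))
  rw [e2] at z1
  rw [e4] at w1
  have n1 : ⌊X + e⌋ = ⌊X⌋ ∨ ⌊X + e⌋ = ⌊X⌋ + 1 := by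
    have u1 : (⌊X + e⌋ : ℝ) < ⌊X⌋ + 2 := by linarith
    have u2 : (⌊X⌋ : ℝ) - 1 < ⌊X + e⌋ := by linarith
    have u3 : ⌊X + e⌋ < ⌊X⌋ + 2 := by exact_mod_cast u1
    have u4 : ⌊X⌋ - 1 < ⌊X + e⌋ := by exact_mod_cast u2
    omega
  push_cast
  rcases n1 with n1 | n1
  · left
    rw [n1] at y1
    linarith
  · right
    rw [n1] at w1
    push_cast at w1
    linarith

lemma big_neg {e X : ℝ} {K : ℕ} (hK : 2 ≤ K) (he1 : 2 - t < e) (he2 : e ≤ 1 / 2)
    (h : ∀ j : ℕ, j < K → 2 - t ≤ Int.fract (X + j * (-e))) :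
    ((((K + 1) / 2 : ℕ) : ℝ) - 1) * (1 - 2 * e) < t - 1 - e ∨
      (((K / 2 : ℕ) : ℝ) - 1) * (1 - 2 * e) < t - 2 + e := by
  have g1 := t_gt
  have g2 := t_lt
  have hc : |1 - 2 * e| ≤ 2 - t := by
    rw [abs_of_nonneg (by linarith)]; linarith
  have hE : ∀ j : ℕ, j < (K + 1) / 2 → 2 - t ≤ Int.fract (X + j * (1 - 2 * e)) := by
    intro j hj
    have h1 := h (2 * j) (by omega)
    have e1 : X + ((2 * j : ℕ) : ℝ) * (-e) = X + j * (1 - 2 * e) + ((-j : ℤ) : ℝ) := by
      push_cast; ring
    rwa [e1, Int.fract_add_intCast] at h1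
  have hO : ∀ j : ℕ, j < K / 2 → 2 - t ≤ Int.fract ((X - e) + j * (1 - 2 * e)) := by
    intro j hj
    have h1 := h (2 * j + 1) (by omega)
    have e1 : X + ((2 * j + 1 : ℕ) : ℝ) * (-e) =
        (X - e) + j * (1 - 2 * e) + ((-j : ℤ) : ℝ) := by
      push_cast; ring
    rwa [e1, Int.fract_add_intCast] at h1
  have dE := drift0 hc hE
  have dO := drift0 hc hO
  obtain ⟨M, hM⟩ : ∃ M, (K + 1) / 2 = M + 1 := ⟨(K + 1) / 2 - 1, by omega⟩
  obtain ⟨m, hm⟩ : ∃ m, K / 2 = m + 1 := ⟨K / 2 - 1, by omega⟩
  rw [hM] at hE dE ⊢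
  rw [hm] at hO dO ⊢
  have e1 := Int.fract_lt_one (X + M * (1 - 2 * e))
  have e2 := dE M (by omega)
  have e3 := Int.fract_lt_one ((X - e) + m * (1 - 2 * e))
  have e4 := dO m (by omega)
  have x1 := Int.floor_add_fract X
  have x2 := Int.fract_lt_one X
  have x3 : 2 - t ≤ Int.fract X := by simpa using hE 0 (by omega)
  have y1 := Int.floor_add_fract (X - e)
  have y2 := Int.fract_lt_one (X - e)
  have y3 : 2 - t ≤ Int.fract (X - e) := by simpa using hO 0 (by omega)
  have z1 := Int.floor_add_fract (X + M * (1 - 2 * e))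
  have w1 := Int.floor_add_fract ((X - e) + m * (1 - 2 * e))
  rw [e2] at z1
  rw [e4] at w1
  have n1 : ⌊X - e⌋ = ⌊X⌋ ∨ ⌊X - e⌋ = ⌊X⌋ - 1 := by
    have u1 : (⌊X - e⌋ : ℝ) < ⌊X⌋ + 1 := by linarith
    have u2 : (⌊X⌋ : ℝ) - 2 < ⌊X - e⌋ := by linarith
    have u3 : ⌊X - e⌋ < ⌊X⌋ + 1 := by exact_mod_cast u1
    have u4 : ⌊X⌋ - 2 < ⌊X - e⌋ := by exact_mod_cast u2
    omega
  push_cast
  rcases n1 with n1 | n1
  · left
    rw [n1] at y1
    linarith
  · right
    rw [n1] at w1
    push_cast at w1
    linarith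

/-! ### The norm form -/

lemma norm_form {d : ℕ} (hd : 1 ≤ d) (p : ℤ) (hp : |(d : ℝ) * t - p| ≤ 1) :
    (0 < (d : ℝ) * t - p ∧ ∃ N : ℤ, 1 ≤ N ∧
      ((d : ℝ) * t - p) * ((2 * t - 1) * d - (d * t - p)) = N) ∨
    ((d : ℝ) * t - p < 0 ∧ ∃ N : ℤ, 1 ≤ N ∧
      (-((d : ℝ) * t - p)) * ((2 * t - 1) * d - (d * t - p)) = N) := by
  have g1 := t_gt
  have hd' : (1 : ℝ) ≤ d := by exact_mod_cast hd
  have hpos : 0 < (2 * t - 1) * d - (d * t - p) := by
    have := (abs_le.1 hp).2
    nlinarith
  have hne : (d : ℝ) * t - p ≠ 0 := fun h => mul_t_ne_int hd p (by linarith)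
  have hN : ((d : ℝ) * t - p) * ((2 * t - 1) * d - (d * t - p)) =
      (((d : ℤ) ^ 2 + p * d - p ^ 2 : ℤ) : ℝ) := by
    have := t_sq
    push_cast
    linear_combination ((d : ℝ) ^ 2) * this
  rcases lt_or_gt_of_ne hne with h | h
  · right
    refine ⟨h, -((d : ℤ) ^ 2 + p * d - p ^ 2), ?_, ?_⟩
    · have h1 : (((d : ℤ) ^ 2 + p * d - p ^ 2 : ℤ) : ℝ) < 0 := by
        rw [← hN]; exact mul_neg_of_neg_of_pos h hpos
      have h2 : ((d : ℤ) ^ 2 + p * d - p ^ 2 : ℤ) < 0 := by exact_mod_cast h1
      omega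
    · rw [neg_mul, hN]; push_cast; ring
  · left
    refine ⟨h, (d : ℤ) ^ 2 + p * d - p ^ 2, ?_, hN⟩
    have h1 : (0 : ℝ) < (((d : ℤ) ^ 2 + p * d - p ^ 2 : ℤ) : ℝ) := by
      rw [← hN]; exact mul_pos h hpos
    have h2 : (0 : ℤ) < ((d : ℤ) ^ 2 + p * d - p ^ 2 : ℤ) := by exact_mod_cast h1
    omega

/-- the two halves of the circle give the same bound -/
lemma half_bound {k : ℕ} {e : ℝ} (he : e ≤ 1 / 2)
    (h : ((((k + 1) / 2 : ℕ) : ℝ) - 1) * (1 - 2 * e) < t - 1 - e ∨
      (((k / 2 : ℕ) : ℝ) - 1) * (1 - 2 * e) < t - 2 + e) :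
    ((k : ℝ) - 3) * (1 - 2 * e) < 2 * t - 3 := by
  have h0 : 0 ≤ 1 - 2 * e := by linarith
  rcases h with h | h
  · have h1 : (k : ℝ) ≤ 2 * (((k + 1) / 2 : ℕ) : ℝ) := by
      have : k ≤ 2 * ((k + 1) / 2) := by omega
      exact_mod_cast this
    nlinarith
  · have h1 : (k : ℝ) - 1 ≤ 2 * ((k / 2 : ℕ) : ℝ) := by
      have : k ≤ 2 * (k / 2) + 1 := by omega
      have : (k : ℝ) ≤ 2 * ((k / 2 : ℕ) : ℝ) + 1 := by exact_mod_cast this
      linarith
    nlinarith

/-- The main estimate. -/
lemma main {d k i : ℕ} (hd : 1 ≤ d) (h : ∀ j < k, g (i + j * d) = g i)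
    (hk : (d : ℝ) * (3 - t) ≤ (k : ℝ) - 1) : False := by
  have g1 := t_gt
  have g2 := t_lt
  have hsq := t_sq
  have hd' : (1 : ℝ) ≤ d := by exact_mod_cast hd
  set X : ℝ := ((i : ℝ) + 1) * t with hX
  set p : ℤ := round ((d : ℝ) * t) with hp
  have habs : |(d : ℝ) * t - p| ≤ 1 / 2 := abs_sub_round _
  obtain ⟨e, he⟩ : ∃ e, e = (d : ℝ) * t - p := ⟨_, rfl⟩
  have hnf := norm_form hd p (by linarith)
  rw [← he] at habs hnf
  have hfr : ∀ j : ℕ, Int.fract (((i + j * d : ℕ) : ℝ) * t + t) = Int.fract (X + j * e) := by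
    intro j
    have : ((i + j * d : ℕ) : ℝ) * t + t = X + j * e + ((j * p : ℤ) : ℝ) := by
      rw [hX, he]; push_cast; ring
    rw [this, Int.fract_add_intCast]
  have hgj : ∀ j : ℕ, g (i + j * d) = if Int.fract (X + j * e) < 2 - t then 1 else 0 := by
    intro j
    unfold g
    rw [← hfr j]
    have : (((i + j * d : ℕ) : ℝ) + 1) * t = ((i + j * d : ℕ) : ℝ) * t + t := by ring
    rw [this]
  have k3 : 3 ≤ k := by
    have : (2 : ℝ) < k := by nlinarith
    have : 2 < k := by exact_mod_cast this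
    omega
  have hea := abs_le.1 habs
  obtain ⟨q, hq⟩ : ∃ q, k = q + 1 := ⟨k - 1, by omega⟩
  have hqr : (k : ℝ) - 1 = q := by rw [hq]; push_cast; ring
  have f0 := Int.floor_add_fract X
  have f1 := Int.floor_add_fract (X + q * e)
  have f2 := Int.fract_nonneg X
  have f3 := Int.fract_nonneg (X + q * e)
  have f4 := Int.fract_lt_one X
  have f5 := Int.fract_lt_one (X + q * e)
  by_cases hgi : g i = 1
  · -- letter 1
    have hall : ∀ j : ℕ, j < k → Int.fract (X + j * e) < 2 - t := by
      intro j hj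
      by_contra hcon
      have h1 := hgj j
      rw [if_neg hcon, h j hj, hgi] at h1
      exact absurd h1 (by norm_num)
    have hfl := drift1 habs hall q (by omega)
    rw [hfl] at f1
    have a0 := hall 0 (by omega)
    have a1 := hall q (by omega)
    simp only [Nat.cast_zero, zero_mul, add_zero] at a0
    rw [hqr] at hk
    rcases hnf with ⟨hpos, N, hN, hNe⟩ | ⟨hneg, N, hN, hNe⟩
    · have hN' : (1 : ℝ) ≤ N := by exact_mod_cast hN
      have b1 : (q : ℝ) * e < 2 - t := by linarith
      have b2 : (d : ℝ) * (3 - t) * e ≤ q * e := mul_le_mul_of_nonneg_right hk hpos.le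
      have b3 : (d : ℝ) * (3 - t) * e = (t - 1) * (N + e ^ 2) := by
        rw [← hNe]; linear_combination (-2 * (d:ℝ) * e) * hsq
      nlinarith
    · have hN' : (1 : ℝ) ≤ N := by exact_mod_cast hN
      have b1 : (q : ℝ) * (-e) < 2 - t := by linarith
      have b2 : (d : ℝ) * (3 - t) * (-e) ≤ q * (-e) :=
        mul_le_mul_of_nonneg_right hk (by linarith)
      have b3 : (d : ℝ) * (3 - t) * (-e) = (t - 1) * (N - e ^ 2) := by
        rw [← hNe]; linear_combination (2 * (d:ℝ) * e) * hsq
      nlinarith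
  · -- letter 0
    have hgi0 : g i = 0 := by
      have h1 := hgj 0
      simp only [zero_mul, add_zero] at h1
      split_ifs at h1 with hh
      · exact absurd h1 hgi
      · exact h1
    have hall : ∀ j : ℕ, j < k → 2 - t ≤ Int.fract (X + j * e) := by
      intro j hj
      by_contra hcon
      have h1 := hgj j
      rw [if_pos (not_le.1 hcon), h j hj, hgi0] at h1
      exact absurd h1 (by norm_num)
    by_cases hsmall : |e| ≤ 2 - t
    · have hfl := drift0 hsmall hall q (by omega)
      rw [hfl] at f1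
      have a0 := hall 0 (by omega)
      have a1 := hall q (by omega)
      simp only [Nat.cast_zero, zero_mul, add_zero] at a0
      have hes := abs_le.1 hsmall
      rcases hnf with ⟨hpos, N, hN, hNe⟩ | ⟨hneg, N, hN, hNe⟩
      · have hN' : (1 : ℝ) ≤ N := by exact_mod_cast hN
        rw [hqr] at hk
        have b1 : (q : ℝ) * e < t - 1 := by linarith
        have b2 : (d : ℝ) * (3 - t) * e ≤ q * e := mul_le_mul_of_nonneg_right hk hpos.le
        have b3 : (d : ℝ) * (3 - t) * e = (t - 1) * (N + e ^ 2) := by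
          rw [← hNe]; linear_combination (-2 * (d:ℝ) * e) * hsq
        nlinarith
      · have b1 : (q : ℝ) * (-e) < t - 1 := by linarith
        rcases hN.eq_or_lt with hN1 | hN2
        · have b3 : (d : ℝ) * (3 - t) * (-e) = (t - 1) * (1 - e ^ 2) := by
            have h6 : (d : ℝ) * (3 - t) * (-e) = (t - 1) * (N - e ^ 2) := by
              rw [← hNe]; linear_combination (2 * (d:ℝ) * e) * hsq
            rw [h6, ← hN1]; push_cast; ring
          have hq2 : (3 * (d : ℤ) - p + 1 : ℤ) ≤ q := by
            have : ((3 * (d : ℤ) - p : ℤ) : ℝ) < ((q : ℤ) : ℝ) := by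
              push_cast
              rw [hqr] at hk
              nlinarith
            have : (3 * (d : ℤ) - p : ℤ) < q := by exact_mod_cast this
            omega
          have hq3 : 3 * (d : ℝ) - p + 1 ≤ q := by exact_mod_cast hq2
          have b4 : (3 * (d : ℝ) - p + 1) * (-e) ≤ q * (-e) :=
            mul_le_mul_of_nonneg_right hq3 (by linarith)
          have b5 : (3 * (d : ℝ) - p + 1) * (-e) = (t - 1) * (1 - e ^ 2) + (-e) * (1 + e) := by
            rw [← b3, he]; ring
          have b6 : 0 < 1 + t * e := by nlinarith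
          have b7 : 0 < (-e) * (1 + t * e) := mul_pos (by linarith) b6
          have b8 : (t - 1) * (1 - e ^ 2) + (-e) * (1 + e) = (t - 1) + (-e) * (1 + t * e) := by
            ring
          linarith
        · have hN' : (2 : ℝ) ≤ N := by
            have : (2 : ℤ) ≤ N := by omega
            exact_mod_cast this
          rw [hqr] at hk
          have b2 : (d : ℝ) * (3 - t) * (-e) ≤ q * (-e) :=
            mul_le_mul_of_nonneg_right hk (by linarith)
          have b3 : (d : ℝ) * (3 - t) * (-e) = (t - 1) * (N - e ^ 2) := by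
            rw [← hNe]; linear_combination (2 * (d:ℝ) * e) * hsq
          nlinarith
    · -- |e| > 2 - t
      have hbig : 2 - t < |e| := not_le.1 hsmall
      -- the general bound
      have hkey : ((k : ℝ) - 3) * (1 - 2 * |e|) < 2 * t - 3 := by
        rcases hnf with ⟨hpos, -⟩ | ⟨hneg, -⟩
        · rw [abs_of_pos hpos] at hbig habs ⊢
          exact half_bound habs (big_pos (by omega) hbig habs hall)
        · rw [abs_of_neg hneg] at hbig habs ⊢
          refine half_bound habs (big_neg (X := X) (K := k) (by omega) hbig habs ?_)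
          intro j hj
          rw [neg_neg]
          exact hall j hj
      have hnorm2 : 1 ≤ (1 - 2 * |e|) * (2 * (2 * t - 1) * d + (1 - 2 * |e|)) := by
        rcases hnf with ⟨hpos, -⟩ | ⟨hneg, -⟩
        · rw [abs_of_pos hpos] at hbig habs ⊢
          have h2 := norm_form (d := 2 * d) (by omega) (2 * p + 1) (by
            rw [abs_le]; push_cast; constructor <;> linarith)
          push_cast at h2
          have e1 : 2 * (d : ℝ) * t - (2 * p + 1) = -(1 - 2 * e) := by rw [he]; ring
          rw [e1] at h2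
          rcases h2 with ⟨h3, -⟩ | ⟨-, N, hN, hNe⟩
          · linarith
          · have hN' : (1 : ℝ) ≤ N := by exact_mod_cast hN
            rw [neg_neg] at hNe
            nlinarith
        · rw [abs_of_neg hneg] at hbig habs ⊢
          have h2 := norm_form (d := 2 * d) (by omega) (2 * p - 1) (by
            rw [abs_le]; push_cast; constructor <;> linarith)
          push_cast at h2
          have e1 : 2 * (d : ℝ) * t - (2 * p - 1) = 1 + 2 * e := by rw [he]; ring
          rw [e1] at h2
          rcases h2 with ⟨-, N, hN, hNe⟩ | ⟨h3, -⟩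
          · have hN' : (1 : ℝ) ≤ N := by exact_mod_cast hN
            nlinarith [sq_nonneg (1 + 2 * e)]
          · linarith
      by_cases hd7 : 7 ≤ d
      · have hd7' : (7 : ℝ) ≤ d := by exact_mod_cast hd7
        obtain ⟨w, hw⟩ : ∃ w, w = 1 - 2 * |e| := ⟨_, rfl⟩
        rw [← hw] at hkey hnorm2
        have hw0 : 0 ≤ w := by rw [hw]; linarith
        have hk2 : (d : ℝ) * (3 - t) - 2 ≤ (k : ℝ) - 3 := by linarith
        have c1 : ((d : ℝ) * (3 - t) - 2) * w ≤ ((k : ℝ) - 3) * w :=
          mul_le_mul_of_nonneg_right hk2 hw0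
        have c2 : (7 : ℝ) * (3 - t) - 2 ≤ (d : ℝ) * (3 - t) - 2 := by nlinarith
        have c3 : ((7 : ℝ) * (3 - t) - 2) * w ≤ ((d : ℝ) * (3 - t) - 2) * w :=
          mul_le_mul_of_nonneg_right c2 hw0
        have c4 : w < 0.031 := by
          by_contra hcon
          push Not at hcon
          nlinarith
        have c5 : 0 ≤ (d : ℝ) * w := by positivity
        have c6 : 7 * w ≤ d * w := mul_le_mul_of_nonneg_right hd7' hw0
        nlinarith
      · -- small d
        have hdlt : d < 7 := by omega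
        have hpe : (p : ℝ) = d * t - e := by rw [he]; ring
        obtain ⟨p', hp'⟩ : ∃ p' : ℤ, p' = p := ⟨_, rfl⟩
        rw [← hp'] at hpe he
        clear_value p
        have key : ∀ v : ℤ, (v : ℝ) - 1 < p' → (p' : ℝ) < v + 1 → p' = v := by
          intro v h1 h2
          have h3 : v - 1 < p' := by exact_mod_cast h1
          have h4 : p' < v + 1 := by exact_mod_cast h2
          omega
        interval_cases d
        · have := key 2 (by push_cast at hpe ⊢; linarith) (by push_cast at hpe ⊢; linarith)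
          rw [this] at he
          push_cast at he
          rw [he, abs_of_neg (by linarith)] at hbig
          linarith
        · have := key 3 (by push_cast at hpe ⊢; linarith) (by push_cast at hpe ⊢; linarith)
          rw [this] at he
          push_cast at he
          rw [he, abs_of_pos (by linarith)] at hbig
          linarith
        · have := key 5 (by push_cast at hpe ⊢; linarith) (by push_cast at hpe ⊢; linarith)
          rw [this] at he
          push_cast at he
          rw [he, abs_of_neg (by linarith)] at hbig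
          linarith
        · have := key 6 (by push_cast at hpe ⊢; linarith) (by push_cast at hpe ⊢; linarith)
          rw [this] at he
          push_cast at he
          have hk7 : 7 ≤ k := by
            have : (6 : ℝ) < k := by push_cast at hk; linarith
            have : 6 < k := by exact_mod_cast this
            omega
          have hpos : 0 < e := by linarith
          rw [abs_of_pos hpos] at hbig habs
          have hb := big_pos (X := X) (K := 7) (by omega) hbig habs
            (fun j hj => hall j (by omega))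
          norm_num at hb
          rcases hb with hb | hb
          · linarith
          · linarith
        · have := key 8 (by push_cast at hpe ⊢; linarith) (by push_cast at hpe ⊢; linarith)
          rw [this] at he
          push_cast at he
          rw [he, abs_of_pos (by linarith)] at hbig
          linarith
        · have := key 10 (by push_cast at hpe ⊢; linarith) (by push_cast at hpe ⊢; linarith)
          rw [this] at he
          push_cast at he
          rw [he, abs_of_neg (by linarith)] at hbig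
          linarith

lemma mem_lt {d k : ℕ} (hd : 1 ≤ d) (hk : k ∈ lengths d) : (k : ℝ) - 1 < d * (3 - t) := by
  obtain ⟨i, hi⟩ := hk
  by_contra hcon
  push Not at hcon
  refine main (d := d) (k := k) (i := i) hd ?_ hcon
  intro j hj
  rw [← fibWord_eq, ← fibWord_eq]
  exact hi j hj

/-- For every `d ≥ 1` the monochromatic arithmetic progressions of difference `d` in the
Fibonacci word have bounded length, and `(A(d) - 1)/d < √5/τ`. -/
theorem result : ∀ d : ℕ, 1 ≤ d →
    BddAbove (lengths d) ∧ ((A d : ℝ) - 1) / d < √5 / goldenRatio := by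
  intro d hd
  have hd' : (1 : ℝ) ≤ d := by exact_mod_cast hd
  have hb : BddAbove (lengths d) := by
    refine ⟨2 * d + 1, fun k hk => ?_⟩
    have h1 := mem_lt hd hk
    have g1 := t_gt
    have h2 : (k : ℝ) ≤ 2 * d + 1 := by nlinarith
    exact_mod_cast h2
  refine ⟨hb, ?_⟩
  have hA : A d ∈ lengths d := Nat.sSup_mem ⟨0, 0, fun j hj => absurd hj (by omega)⟩ hb
  have h1 := mem_lt hd hA
  rw [sqrt_div, div_lt_iff₀ (by linarith)]
  linarith

end Pool.Agent.Results.MP_ca4252_co.SlopeBound
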